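import Pool.Agent.K7.H81.RT.Fin
import Pool.Agent.K7.H81.RT.BadPf
import Pool.Agent.K7.H64.RT_PIG
import Pool.Agent.K7.H60.RT_LOW
import Pool.Agent.K7.H97.RT_UPP
import Pool.Agent.K7.H77.RT_ROT
import Pool.Agent.K7.H99.RT_DENS

/-!
# Repetition thresholds of codings of interval exchanges (MP_b68e99_co)

`RT d` and `RTs d` are the infima of the critical exponents and of the asymptotic critical exponents
of the codings of exchanges of `d` intervals with irreducible permutation and Keane's condition
(`Pool.Agent.K7.H81.RT.Stm`).  For all `d ≥ 3` both are between `1 + 1 / (d - 1)` and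
`1 + 3720 / (d - 1)`.

The lemmas were proved by helper60, helper64, helper77, helper81, helper97 and helper99 of the team.
-/

set_option autoImplicit false

namespace Pool.Agent.Results.MP_b68e99_co.ThresholdsOrder

open Pool.Agent.K7.H81.RT

/-- the order of magnitude of `RT(I_d) - 1` and `RT*(I_d) - 1` -/
theorem result : ∀ d : ℕ, 3 ≤ d →
    ENNReal.ofReal (1 + 1 / ((d : ℝ) - 1)) ≤ RTs d ∧ RTs d ≤ RT d ∧
      RT d ≤ ENNReal.ofReal (1 + 3720 / ((d : ℝ) - 1)) :=
  stFin stBad Pool.Agent.K7.H99.RT.dens Pool.Agent.K7.H77.RTROT.stRot Pool.Agent.K7.H97.RTUPP.t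
    Pool.Agent.K7.H64.RTPIG.pig Pool.Agent.K7.H60.RTLOW.t

end Pool.Agent.Results.MP_b68e99_co.ThresholdsOrder
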